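import Mathlib
import Pool.Agent.V11332.RecHarm

namespace Pool.Agent.Results.MP_5a22fd_pr.BoundedDensity

open MeasureTheory ProbabilityTheory Set Filter Topology
open Pool.Agent.V11332.RecHarm

/-! ### Arithmetic -/

lemma sum_w (j N : ℕ) (hj : 1 ≤ j) (hjN : j ≤ N) :
    ∑ n ∈ Finset.Ico j N, 1 / ((n : ℝ) * ((n : ℝ) + 1)) = 1 / (j : ℝ) - 1 / N := by
  induction N, hjN using Nat.le_induction with
  | base => simp
  | succ N hN ih =>
    rw [Finset.sum_Ico_succ_top hN, ih]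
    have h1 : (0 : ℝ) < N := by exact_mod_cast (by omega : 0 < N)
    push_cast
    field_simp
    ring

lemma sum_w2 (j N : ℕ) (hj : 1 ≤ j) (hjN : j ≤ N) :
    1 / 2 * (1 / ((j : ℝ) * (j + 1)) - 1 / ((N : ℝ) * (N + 1))) ≤
      ∑ n ∈ Finset.Ico j N, 1 / ((n : ℝ) * ((n : ℝ) + 1) ^ 2) := by
  induction N, hjN using Nat.le_induction with
  | base => simp
  | succ N hN ih =>
    rw [Finset.sum_Ico_succ_top hN]
    have h1 : (0 : ℝ) < N := by exact_mod_cast (by omega : 0 < N)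
    have h2 : 1 / 2 * (1 / ((N : ℝ) * (N + 1)) - 1 / (((N : ℝ) + 1) * ((N : ℝ) + 1 + 1))) ≤
        1 / ((N : ℝ) * ((N : ℝ) + 1) ^ 2) := by
      have e1 : 1 / 2 * (1 / ((N : ℝ) * (N + 1)) - 1 / (((N : ℝ) + 1) * ((N : ℝ) + 1 + 1))) =
          1 / ((N : ℝ) * (N + 1) * (N + 2)) := by
        field_simp
        ring
      rw [e1]
      apply one_div_le_one_div_of_le (by positivity)
      nlinarith
    push_cast
    linarith

/-- The supersolution property of `1 + 10 z`. -/
lemma supersol {L : ℕ} (hL : 2 ≤ L) {z : ℝ} (hz : 1 / (L : ℝ) ≤ z) :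
    ∑ n ∈ Finset.Ico 1 (4 * L), 1 / ((n : ℝ) * ((n : ℝ) + 1)) *
      (if 1 / ((n : ℝ) + 1) ≤ z then 1 + 10 * (z - 1 / ((n : ℝ) + 1)) else 0) <
      (z - 1 / ((4 * L : ℕ) : ℝ)) * (1 + 10 * z) := by
  have hL0 : (0 : ℝ) < L := by exact_mod_cast (by omega : 0 < L)
  have hL2 : (2 : ℝ) ≤ L := by exact_mod_cast hL
  -- minimal index
  have hex : ∃ j : ℕ, 1 ≤ j ∧ 1 / ((j : ℝ) + 1) ≤ z := ⟨L, by omega, by
    refine le_trans ?_ hz
    exact one_div_le_one_div_of_le hL0 (by linarith)⟩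
  obtain ⟨j, hj1, hjz, hjL, hmin⟩ : ∃ j : ℕ, 1 ≤ j ∧ 1 / ((j : ℝ) + 1) ≤ z ∧ j + 1 ≤ L ∧
      ∀ n : ℕ, 1 ≤ n → n < j → ¬ 1 / ((n : ℝ) + 1) ≤ z := by
    classical
    refine ⟨Nat.find hex, (Nat.find_spec hex).1, (Nat.find_spec hex).2, ?_,
      fun n hn hnj h => Nat.find_min hex hnj ⟨hn, h⟩⟩
    have : Nat.find hex ≤ L - 1 := by
      refine Nat.find_min' hex ⟨by omega, ?_⟩
      have h1 : ((L - 1 : ℕ) : ℝ) + 1 = L := by
        rw [Nat.cast_sub (by omega)]; push_cast; ring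
      rw [h1]; exact hz
    omega
  set N := 4 * L with hN
  have hjN : j ≤ N := by omega
  have hNr : (N : ℝ) = 4 * L := by rw [hN]; push_cast; ring
  have hN0 : (0 : ℝ) < N := by rw [hNr]; linarith
  have hj0 : (0 : ℝ) < j := by exact_mod_cast hj1
  -- evaluate the sum
  have hsum : ∑ n ∈ Finset.Ico 1 N, 1 / ((n : ℝ) * ((n : ℝ) + 1)) *
      (if 1 / ((n : ℝ) + 1) ≤ z then 1 + 10 * (z - 1 / ((n : ℝ) + 1)) else 0) =
      (1 + 10 * z) * (1 / (j : ℝ) - 1 / N) -
        10 * ∑ n ∈ Finset.Ico j N, 1 / ((n : ℝ) * ((n : ℝ) + 1) ^ 2) := by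
    rw [← Finset.sum_Ico_consecutive _ hj1 hjN]
    have h1 : ∑ n ∈ Finset.Ico 1 j, 1 / ((n : ℝ) * ((n : ℝ) + 1)) *
        (if 1 / ((n : ℝ) + 1) ≤ z then 1 + 10 * (z - 1 / ((n : ℝ) + 1)) else 0) = 0 := by
      refine Finset.sum_eq_zero fun n hn => ?_
      rw [Finset.mem_Ico] at hn
      rw [if_neg (hmin n hn.1 hn.2), mul_zero]
    rw [h1, zero_add, ← sum_w j N hj1 hjN, Finset.mul_sum, Finset.mul_sum,
      ← Finset.sum_sub_distrib]
    refine Finset.sum_congr rfl fun n hn => ?_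
    rw [Finset.mem_Ico] at hn
    have hn0 : (0 : ℝ) < n := by exact_mod_cast (by omega : 0 < n)
    have hjn : (j : ℝ) ≤ n := by exact_mod_cast hn.1
    rw [if_pos ((one_div_le_one_div_of_le (by positivity) (by linarith)).trans hjz)]
    field_simp
    ring
  rw [hsum]
  have hkey : (1 + 10 * z) * (1 / (j : ℝ) - z) <
      10 * ∑ n ∈ Finset.Ico j N, 1 / ((n : ℝ) * ((n : ℝ) + 1) ^ 2) := by
    -- bound of the left side by its value at `z = 1/(j+1)`
    have hup : (1 + 10 * z) * (1 / (j : ℝ) - z) ≤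
        (1 + 10 / ((j : ℝ) + 1)) * (1 / ((j : ℝ) * (j + 1))) := by
      set t := z - 1 / ((j : ℝ) + 1) with ht
      have ht0 : 0 ≤ t := by rw [ht]; linarith
      have e1 : z = 1 / ((j : ℝ) + 1) + t := by rw [ht]; ring
      have e2 : 1 / (j : ℝ) - 1 / ((j : ℝ) + 1) = 1 / ((j : ℝ) * (j + 1)) := by
        field_simp; ring
      have e3 : (1 + 10 * z) * (1 / (j : ℝ) - z) =
          (1 + 10 / ((j : ℝ) + 1)) * (1 / ((j : ℝ) * (j + 1))) +
          t * (10 * (1 / ((j : ℝ) * (j + 1))) - 1 - 10 / ((j : ℝ) + 1) - 10 * t) := by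
        have : 1 / (j : ℝ) - z = 1 / ((j : ℝ) * (j + 1)) - t := by rw [← e2, e1]; ring
        rw [this, e1]; ring
      rw [e3]
      have e4 : 10 * (1 / ((j : ℝ) * (j + 1))) ≤ 10 / ((j : ℝ) + 1) := by
        rw [mul_one_div]
        apply div_le_div_of_nonneg_left (by norm_num) (by positivity)
        have : (1 : ℝ) ≤ j := by exact_mod_cast hj1
        nlinarith
      have e5 : t * (10 * (1 / ((j : ℝ) * (j + 1))) - 1 - 10 / ((j : ℝ) + 1) - 10 * t) ≤ 0 :=
        mul_nonpos_of_nonneg_of_nonpos ht0 (by linarith)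
      linarith
    refine lt_of_le_of_lt hup ?_
    rcases hj1.eq_or_lt with hj1' | hj2
    · -- `j = 1`
      subst hj1'
      have h2 := sum_w2 2 N (by norm_num) (by omega)
      have h3 : ∑ n ∈ Finset.Ico 1 N, 1 / ((n : ℝ) * ((n : ℝ) + 1) ^ 2) =
          1 / 4 + ∑ n ∈ Finset.Ico 2 N, 1 / ((n : ℝ) * ((n : ℝ) + 1) ^ 2) := by
        rw [Finset.sum_eq_sum_Ico_succ_bot (by omega : 1 < N)]
        norm_num
      rw [h3]
      have h4 : 1 / ((N : ℝ) * (N + 1)) ≤ 1 / 72 := by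
        apply one_div_le_one_div_of_le (by norm_num)
        rw [hNr]; nlinarith
      norm_num at h2 ⊢
      norm_num at h4
      linarith
    · have h2 := sum_w2 j N hj1 hjN
      have hj2' : (2 : ℝ) ≤ j := by exact_mod_cast hj2
      have hjLr : (j : ℝ) + 1 ≤ L := by exact_mod_cast hjL
      have h3 : 1 / ((N : ℝ) * (N + 1)) ≤ 1 / 16 * (1 / ((j : ℝ) * (j + 1))) := by
        rw [one_div_mul_one_div]
        apply one_div_le_one_div_of_le (by positivity)
        rw [hNr]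
        nlinarith
      have h4 : 10 / ((j : ℝ) + 1) ≤ 10 / 3 :=
        div_le_div_of_nonneg_left (by norm_num) (by norm_num) (by linarith)
      have h5 : (0 : ℝ) < 1 / ((j : ℝ) * (j + 1)) := by positivity
      nlinarith
  nlinarith [hkey]

/-! ### Probability -/

variable {Ω : Type*} [MeasurableSpace Ω] {P : Measure Ω} {I : ℕ → Ω → ℝ}

omit [MeasurableSpace Ω] in
lemma Z_eq_sum (N : ℕ) (ω : Ω) :
    X I (Ico 1 N) ω = ∑ n ∈ Finset.Ico 1 N, I n ω / ((n : ℝ) + 1) := by
  unfold X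
  rw [tsum_eq_sum (s := Finset.Ico 1 N)]
  · refine Finset.sum_congr rfl fun n hn => ?_
    rw [Finset.mem_Ico] at hn
    rw [Set.indicator_of_mem (show n ∈ Ico 1 N from hn)]
  · intro n hn
    rw [Finset.mem_Ico] at hn
    rw [Set.indicator_of_notMem (show n ∉ Ico 1 N from hn)]

/-- The window probabilities of the truncated sum. -/
noncomputable def r (P : Measure Ω) (I : ℕ → Ω → ℝ) (N : ℕ) (z : ℝ) : ℝ :=
  P.real {ω | X I (Ico 1 N) ω ∈ Ioc (z - 1 / (N : ℝ)) z}

lemma r_nonneg (N : ℕ) (z : ℝ) : 0 ≤ r P I N z := measureReal_nonneg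

lemma r_neg (h : Rec P I) (N : ℕ) {z : ℝ} (hz : z < 0) : r P I N z = 0 := by
  have : {ω | X I (Ico 1 N) ω ∈ Ioc (z - 1 / (N : ℝ)) z} = ∅ := by
    ext ω
    simp only [mem_Ioc, Set.mem_ofPred_eq, mem_empty_iff_false, iff_false]
    rintro ⟨_, h2⟩
    have := X_nonneg h (Ico 1 N) ω
    linarith
  rw [r, this]; simp

lemma mean_ineq (h : Rec P I) (N : ℕ) (z : ℝ) :
    (z - 1 / (N : ℝ)) * r P I N z ≤ ∑ n ∈ Finset.Ico 1 N,
      1 / ((n : ℝ) * ((n : ℝ) + 1)) * r P I N (z - 1 / ((n : ℝ) + 1)) := by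
  have hprob := h.prob
  have hmZ := meas_X h (Ico 1 N)
  set B : Set ℝ := Ioc (z - 1 / (N : ℝ)) z with hB
  have hBm : MeasurableSet B := measurableSet_Ioc
  have hE : MeasurableSet {ω | X I (Ico 1 N) ω ∈ B} := hmZ hBm
  have hEn : ∀ n, MeasurableSet {ω | I n ω = 1 ∧ X I (Ico 1 N) ω ∈ B} := fun n =>
    (h.meas n (measurableSet_singleton 1)).inter hE
  have h1 : (z - 1 / (N : ℝ)) * r P I N z =
      ∫ ω, {ω | X I (Ico 1 N) ω ∈ B}.indicator (fun _ => z - 1 / (N : ℝ)) ω ∂P := by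
    rw [integral_indicator_const _ hE, smul_eq_mul, mul_comm]; rfl
  have h2 : ∑ n ∈ Finset.Ico 1 N, 1 / ((n : ℝ) + 1) *
      P.real {ω | I n ω = 1 ∧ X I (Ico 1 N) ω ∈ B} =
      ∫ ω, ∑ n ∈ Finset.Ico 1 N, {ω | I n ω = 1 ∧ X I (Ico 1 N) ω ∈ B}.indicator
        (fun _ => 1 / ((n : ℝ) + 1)) ω ∂P := by
    rw [integral_finsetSum]
    · refine Finset.sum_congr rfl fun n _ => ?_
      rw [integral_indicator_const _ (hEn n), smul_eq_mul, mul_comm]
    · intro n _
      exact (integrable_const _).indicator (hEn n)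
  have h3 : (z - 1 / (N : ℝ)) * r P I N z ≤ ∑ n ∈ Finset.Ico 1 N, 1 / ((n : ℝ) + 1) *
      P.real {ω | I n ω = 1 ∧ X I (Ico 1 N) ω ∈ B} := by
    rw [h1, h2]
    refine integral_mono ((integrable_const _).indicator hE)
      (integrable_finsetSum _ fun n _ => (integrable_const _).indicator (hEn n)) fun ω => ?_
    by_cases hω : X I (Ico 1 N) ω ∈ B
    · rw [Set.indicator_of_mem (show ω ∈ {ω | X I (Ico 1 N) ω ∈ B} from hω)]
      refine hω.1.le.trans ?_
      rw [Z_eq_sum]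
      refine Finset.sum_le_sum fun n _ => ?_
      rcases h.val n ω with h4 | h4
      · rw [h4, zero_div]
        exact Set.indicator_nonneg (fun _ _ => by positivity) _
      · rw [Set.indicator_of_mem
          (show ω ∈ {ω | I n ω = 1 ∧ X I (Ico 1 N) ω ∈ B} from ⟨h4, hω⟩), h4]
    · rw [Set.indicator_of_notMem (show ω ∉ {ω | X I (Ico 1 N) ω ∈ B} from hω)]
      exact Finset.sum_nonneg fun n _ => Set.indicator_nonneg (fun _ _ => by positivity) _
  refine h3.trans (Finset.sum_le_sum fun n hn => ?_)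
  rw [Finset.mem_Ico] at hn
  have hn0 : (0 : ℝ) < n := by exact_mod_cast (by omega : 0 < n)
  have h4 := loo h (A := Ico 1 N) (n := n) hn hn.1 hBm
  have h5 : {ω | X I (Ico 1 N) ω + 1 / ((n : ℝ) + 1) ∈ B} =
      {ω | X I (Ico 1 N) ω ∈ Ioc (z - 1 / ((n : ℝ) + 1) - 1 / (N : ℝ))
        (z - 1 / ((n : ℝ) + 1))} := by
    ext ω
    simp only [hB, mem_Ioc, Set.mem_ofPred_eq]
    constructor
    · rintro ⟨h6, h7⟩; constructor <;> linarith
    · rintro ⟨h6, h7⟩; constructor <;> linarith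
  rw [h5] at h4
  calc 1 / ((n : ℝ) + 1) * P.real {ω | I n ω = 1 ∧ X I (Ico 1 N) ω ∈ B}
      ≤ 1 / ((n : ℝ) + 1) * (1 / (n : ℝ) * r P I N (z - 1 / ((n : ℝ) + 1))) :=
        mul_le_mul_of_nonneg_left h4 (by positivity)
    _ = _ := by field_simp

lemma zero_block (h : Rec P I) (m : ℕ) (hm : 1 ≤ m) :
    P.real {ω | ∀ n ∈ Finset.Ico 1 m, I n ω = 0} = 1 / (m : ℝ) := by
  have h1 := h.indep.measure_inter_preimage_eq_mul (Finset.Ico 1 m) (sets := fun _ => {0})
    (fun _ _ => measurableSet_singleton 0)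
  have h2 : {ω | ∀ n ∈ Finset.Ico 1 m, I n ω = 0} = ⋂ n ∈ Finset.Ico 1 m, I n ⁻¹' {0} := by
    ext ω; simp
  rw [h2, measureReal_def, h1, ENNReal.toReal_prod]
  have h3 : ∀ n ∈ Finset.Ico 1 m, (P (I n ⁻¹' {0})).toReal = (n : ℝ) / ((n : ℝ) + 1) := by
    intro n _
    have := zero_prob h n
    rw [measureReal_def] at this
    change (P {ω | I n ω = 0}).toReal = _
    rw [this]
    field_simp
    ring
  rw [Finset.prod_congr rfl h3]
  clear h1 h2 h3
  induction m, hm using Nat.le_induction with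
  | base => simp
  | succ m hm ih =>
    rw [Finset.prod_Ico_succ_top hm, ih]
    have : (0 : ℝ) < m := by exact_mod_cast (by omega : 0 < m)
    push_cast
    field_simp

/-- Near the left endpoint the window probabilities are small. -/
lemma r_small (h : Rec P I) {L : ℕ} (hL : 2 ≤ L) {z : ℝ} (hz : z < 1 / (L : ℝ)) :
    r P I (4 * L) z ≤ 1 / (L : ℝ) := by
  have hprob := h.prob
  rw [← zero_block h L (by omega)]
  refine measureReal_mono fun ω hω => ?_
  intro n hn
  rw [Finset.mem_Ico] at hn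
  by_contra hne
  have h1 : I n ω = 1 := (h.val n ω).resolve_left hne
  have h2 : I n ω / ((n : ℝ) + 1) ≤ X I (Ico 1 (4 * L)) ω := by
    rw [Z_eq_sum]
    exact Finset.single_le_sum (f := fun n : ℕ => I n ω / ((n : ℝ) + 1))
      (fun i _ => term_nonneg h.val i ω) (Finset.mem_Ico.2 ⟨hn.1, by omega⟩)
  rw [h1] at h2
  have h3 : 1 / (L : ℝ) ≤ 1 / ((n : ℝ) + 1) := by
    apply one_div_le_one_div_of_le (by positivity)
    exact_mod_cast hn.2
  have h4 := hω.2
  linarith

/-- The range of the truncated sum is finite. -/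
lemma finite_range (h : Rec P I) (N : ℕ) :
    ∃ V : Finset ℝ, V.Nonempty ∧ ∀ ω, X I (Ico 1 N) ω ∈ V := by
  classical
  refine ⟨(Finset.Ico 1 N).powerset.image (fun J : Finset ℕ => ∑ n ∈ J, 1 / ((n : ℝ) + 1)), ?_, ?_⟩
  · exact ⟨_, Finset.mem_image_of_mem _ (Finset.empty_mem_powerset _)⟩
  · intro ω
    rw [Finset.mem_image]
    refine ⟨(Finset.Ico 1 N).filter (fun n => I n ω = 1), ?_, ?_⟩
    · rw [Finset.mem_powerset]; exact Finset.filter_subset _ _
    · rw [Z_eq_sum, Finset.sum_filter]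
      refine Finset.sum_congr rfl fun n _ => ?_
      rcases h.val n ω with h1 | h1
      · rw [if_neg (by rw [h1]; norm_num), h1, zero_div]
      · rw [if_pos h1, h1]

/-- The maximum principle. -/
lemma r_le (h : Rec P I) {L : ℕ} (hL : 2 ≤ L) {z : ℝ} (hz : 0 ≤ z) :
    r P I (4 * L) z ≤ 1 / (L : ℝ) * (1 + 10 * z) := by
  have hprob := h.prob
  obtain ⟨V, hVne, hV⟩ := finite_range h (4 * L)
  have hL0 : (0 : ℝ) < L := by exact_mod_cast (by omega : 0 < L)
  -- maximise over nonnegative values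
  have hV0 : (V.filter (fun v => 0 ≤ v)).Nonempty := by
    have hne : Nonempty Ω := by
      by_contra hcon
      rw [not_nonempty_iff] at hcon
      have h1 : P univ = 1 := measure_univ
      rw [Set.univ_eq_empty_iff.2 hcon] at h1
      simp at h1
    obtain ⟨ω⟩ := hne
    exact ⟨_, Finset.mem_filter.2 ⟨hV ω, X_nonneg h _ ω⟩⟩
  obtain ⟨v, hv, hmax⟩ := Finset.exists_max_image (V.filter (fun v => 0 ≤ v))
    (fun v => r P I (4 * L) v / (1 + 10 * v)) hV0
  rw [Finset.mem_filter] at hv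
  obtain ⟨_, hv0⟩ := hv
  set A := r P I (4 * L) v / (1 + 10 * v) with hA
  have hA0 : 0 ≤ A := div_nonneg (r_nonneg _ _) (by linarith)
  have hall : ∀ z, 0 ≤ z → r P I (4 * L) z ≤ A * (1 + 10 * z) := by
    intro z hz
    rcases (V.filter (fun v => v ∈ Ioc (z - 1 / ((4 * L : ℕ) : ℝ)) z)).eq_empty_or_nonempty
      with he | hne
    · have : r P I (4 * L) z = 0 := by
        have h1 : {ω | X I (Ico 1 (4 * L)) ω ∈ Ioc (z - 1 / ((4 * L : ℕ) : ℝ)) z} = ∅ := by
          rw [Set.eq_empty_iff_forall_notMem]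
          intro ω hω
          have : X I (Ico 1 (4 * L)) ω ∈
              V.filter (fun v => v ∈ Ioc (z - 1 / ((4 * L : ℕ) : ℝ)) z) :=
            Finset.mem_filter.2 ⟨hV ω, hω⟩
          rw [he] at this
          simp at this
        rw [r, h1]; simp
      rw [this]
      positivity
    · obtain ⟨v1, hv1, hmax1⟩ := Finset.exists_max_image _ (fun v => v) hne
      rw [Finset.mem_filter] at hv1
      have h1 : r P I (4 * L) z ≤ r P I (4 * L) v1 := by
        refine measureReal_mono fun ω hω => ?_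
        have h2 := hmax1 _ (Finset.mem_filter.2 ⟨hV ω, hω⟩)
        exact ⟨lt_of_le_of_lt (by linarith [hv1.2.2]) hω.1, h2⟩
      rcases lt_or_ge v1 0 with hneg | hpos
      · rw [r_neg h _ hneg] at h1
        exact h1.trans (by positivity)
      · have h2 := hmax v1 (Finset.mem_filter.2 ⟨hv1.1, hpos⟩)
        rw [div_le_iff₀ (by linarith)] at h2
        calc r P I (4 * L) z ≤ r P I (4 * L) v1 := h1
          _ ≤ A * (1 + 10 * v1) := h2
          _ ≤ A * (1 + 10 * z) := by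
              apply mul_le_mul_of_nonneg_left _ hA0
              linarith [hv1.2.2]
  have hAle : A ≤ 1 / (L : ℝ) := by
    rcases lt_or_ge v (1 / (L : ℝ)) with hlt | hge
    · have h1 := r_small h hL hlt
      rw [hA]
      calc r P I (4 * L) v / (1 + 10 * v) ≤ r P I (4 * L) v / 1 :=
            div_le_div_of_nonneg_left (r_nonneg _ _) one_pos (by linarith)
        _ ≤ _ := by rw [div_one]; exact h1
    · rcases hA0.eq_or_lt with h0 | hpos
      · rw [← h0]; positivity
      · exfalso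
        have h1 := mean_ineq h (4 * L) v
        have h2 := supersol hL hge
        have h3 : ∑ n ∈ Finset.Ico 1 (4 * L),
            1 / ((n : ℝ) * ((n : ℝ) + 1)) * r P I (4 * L) (v - 1 / ((n : ℝ) + 1)) ≤
            A * ∑ n ∈ Finset.Ico 1 (4 * L), 1 / ((n : ℝ) * ((n : ℝ) + 1)) *
              (if 1 / ((n : ℝ) + 1) ≤ v then 1 + 10 * (v - 1 / ((n : ℝ) + 1)) else 0) := by
          rw [Finset.mul_sum]
          refine Finset.sum_le_sum fun n _ => ?_
          have h4 : r P I (4 * L) (v - 1 / ((n : ℝ) + 1)) ≤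
              A * (if 1 / ((n : ℝ) + 1) ≤ v then 1 + 10 * (v - 1 / ((n : ℝ) + 1)) else 0) := by
            split_ifs with hc
            · exact hall _ (by linarith)
            · push Not at hc
              rw [r_neg h _ (by linarith), mul_zero]
          calc _ ≤ 1 / ((n : ℝ) * ((n : ℝ) + 1)) *
                (A * (if 1 / ((n : ℝ) + 1) ≤ v then 1 + 10 * (v - 1 / ((n : ℝ) + 1)) else 0)) :=
                mul_le_mul_of_nonneg_left h4 (by positivity)
            _ = _ := by ring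
        have h5 : r P I (4 * L) v = A * (1 + 10 * v) := by
          rw [hA]; field_simp
        have h6 := mul_lt_mul_of_pos_left h2 hpos
        rw [h5] at h1
        linarith
  exact (hall z hz).trans (mul_le_mul_of_nonneg_right hAle (by linarith))

lemma r_le_const (h : Rec P I) {L : ℕ} (hL : 2 ≤ L) (z : ℝ) :
    r P I (4 * L) z ≤ 13 / (L : ℝ) := by
  have hL0 : (0 : ℝ) < L := by exact_mod_cast (by omega : 0 < L)
  have hL2 : (2 : ℝ) ≤ L := by exact_mod_cast hL
  rcases lt_or_ge z 0 with hz | hz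
  · rw [r_neg h _ hz]; positivity
  rcases le_or_gt z 1 with hz1 | hz1
  · refine (r_le h hL hz).trans ?_
    rw [one_div, inv_mul_eq_div]
    exact div_le_div_of_nonneg_right (by linarith) hL0.le
  · have h1 := mean_ineq h (4 * L) z
    have h2 : ∑ n ∈ Finset.Ico 1 (4 * L),
        1 / ((n : ℝ) * ((n : ℝ) + 1)) * r P I (4 * L) (z - 1 / ((n : ℝ) + 1)) ≤
        ∑ n ∈ Finset.Ico 1 (4 * L), 1 / ((n : ℝ) * ((n : ℝ) + 1)) *
          (1 / (L : ℝ) * (1 + 10 * z)) := by
      refine Finset.sum_le_sum fun n _ => ?_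
      refine mul_le_mul_of_nonneg_left ?_ (by positivity)
      have h3 : 1 / ((n : ℝ) + 1) ≤ 1 := by
        rw [div_le_one (by positivity)]
        have : (0 : ℝ) ≤ n := Nat.cast_nonneg n
        linarith
      refine (r_le h hL (by linarith)).trans ?_
      refine mul_le_mul_of_nonneg_left ?_ (by positivity)
      have : 0 ≤ 1 / ((n : ℝ) + 1) := by positivity
      linarith
    rw [← Finset.sum_mul, sum_w 1 (4 * L) le_rfl (by omega)] at h2
    have h4 : (1 / ((1 : ℕ) : ℝ) - 1 / ((4 * L : ℕ) : ℝ)) * (1 / (L : ℝ) * (1 + 10 * z)) ≤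
        1 / (L : ℝ) * (1 + 10 * z) := by
      have h5 : 1 / ((1 : ℕ) : ℝ) - 1 / ((4 * L : ℕ) : ℝ) ≤ 1 := by
        have : (0 : ℝ) ≤ 1 / ((4 * L : ℕ) : ℝ) := by positivity
        norm_num
      exact mul_le_of_le_one_left (by positivity) h5
    have h5 : 1 / ((4 * L : ℕ) : ℝ) ≤ 1 / 8 := by
      apply one_div_le_one_div_of_le (by norm_num)
      push_cast
      linarith
    have h6 : (z - 1 / 8) * r P I (4 * L) z ≤ (z - 1 / ((4 * L : ℕ) : ℝ)) * r P I (4 * L) z :=
      mul_le_mul_of_nonneg_right (by linarith) (r_nonneg _ _)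
    have h7 : (z - 1 / 8) * r P I (4 * L) z ≤ 1 / (L : ℝ) * (1 + 10 * z) := by linarith
    by_contra hcon
    push Not at hcon
    have h8 : (z - 1 / 8) * (13 / (L : ℝ)) < (z - 1 / 8) * r P I (4 * L) z :=
      mul_lt_mul_of_pos_left hcon (by linarith)
    have h9 : 1 / (L : ℝ) * (1 + 10 * z) ≤ (z - 1 / 8) * (13 / (L : ℝ)) := by
      rw [one_div, inv_mul_eq_div, mul_div_assoc']
      exact div_le_div_of_nonneg_right (by linarith) hL0.le
    linarith

/-! ### From windows to intervals -/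

lemma interval_le (h : Rec P I) {L : ℕ} (hL : 2 ≤ L) {a b : ℝ} (hab : a ≤ b) :
    P.real {ω | X I (Ico 1 (4 * L)) ω ∈ Ioc a b} ≤ 52 * (b - a) + 13 / (L : ℝ) := by
  have hprob := h.prob
  have hL0 : (0 : ℝ) < L := by exact_mod_cast (by omega : 0 < L)
  set N : ℕ := 4 * L with hN
  have hNr : (N : ℝ) = 4 * L := by rw [hN]; push_cast; ring
  have hN0 : (0 : ℝ) < N := by rw [hNr]; linarith
  set K := ⌈(b - a) * N⌉₊ with hK
  have hsub : {ω | X I (Ico 1 N) ω ∈ Ioc a b} ⊆ ⋃ i ∈ Finset.range K,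
      {ω | X I (Ico 1 N) ω ∈ Ioc (b - i / N - 1 / (N : ℝ)) (b - i / N)} := by
    intro ω hω
    have hω' : a < X I (Ico 1 N) ω ∧ X I (Ico 1 N) ω ≤ b := hω
    set x := X I (Ico 1 N) ω with hx
    have hnn : 0 ≤ (b - x) * N := mul_nonneg (by linarith) hN0.le
    simp only [mem_iUnion, Finset.mem_range]
    have h1 := Nat.floor_le hnn
    have h2 := Nat.lt_floor_add_one ((b - x) * N)
    refine ⟨⌊(b - x) * N⌋₊, ?_, ?_⟩
    · have h3 : (b - x) * N < (b - a) * N := mul_lt_mul_of_pos_right (by linarith) hN0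
      have h4 : (b - a) * N ≤ K := Nat.le_ceil _
      exact_mod_cast (lt_of_le_of_lt h1 (h3.trans_le h4))
    · change b - _ / N - 1 / (N : ℝ) < x ∧ x ≤ b - _ / N
      constructor
      · have h5 : b - x < ((⌊(b - x) * N⌋₊ : ℝ) + 1) / N := by
          rw [lt_div_iff₀ hN0]; exact h2
        rw [add_div] at h5
        linarith
      · have h6 : (⌊(b - x) * N⌋₊ : ℝ) / N ≤ b - x := by
          rw [div_le_iff₀ hN0]
          exact h1
        linarith
  have h1 : P.real {ω | X I (Ico 1 N) ω ∈ Ioc a b} ≤ K * (13 / (L : ℝ)) := by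
    calc P.real {ω | X I (Ico 1 N) ω ∈ Ioc a b}
        ≤ P.real (⋃ i ∈ Finset.range K,
          {ω | X I (Ico 1 N) ω ∈ Ioc (b - i / N - 1 / (N : ℝ)) (b - i / N)}) :=
          measureReal_mono hsub (measure_ne_top _ _)
      _ ≤ ∑ i ∈ Finset.range K,
          P.real {ω | X I (Ico 1 N) ω ∈ Ioc (b - i / N - 1 / (N : ℝ)) (b - i / N)} :=
          measureReal_biUnion_finset_le _ _
      _ ≤ ∑ _i ∈ Finset.range K, 13 / (L : ℝ) :=
          Finset.sum_le_sum fun i _ => r_le_const h hL _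
      _ = _ := by rw [Finset.sum_const, Finset.card_range, nsmul_eq_mul]
  have h2 : (K : ℝ) ≤ (b - a) * N + 1 := (Nat.ceil_lt_add_one
    (mul_nonneg (by linarith) hN0.le)).le
  calc _ ≤ K * (13 / (L : ℝ)) := h1
    _ ≤ ((b - a) * N + 1) * (13 / (L : ℝ)) := mul_le_mul_of_nonneg_right h2 (by positivity)
    _ = 52 * (b - a) + 13 / (L : ℝ) := by rw [hNr]; field_simp; ring

lemma main_eps (h : Rec P I) {a b ε : ℝ} (hab : a ≤ b) (hε : 0 < ε) {L : ℕ} (hL : 2 ≤ L) :
    P.real {ω | X I (Ici 1) ω ∈ Ioc a b} ≤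
      52 * (b - a + ε) + 13 / (L : ℝ) + 1 / (4 * ε) / L := by
  have hprob := h.prob
  have hL0 : (0 : ℝ) < L := by exact_mod_cast (by omega : 0 < L)
  have h1 := interval_le h hL (a := a - ε) (b := b) (by linarith)
  have h2 := tail h (N := 4 * L) (by omega) hε
  have hset : Ico 1 (4 * L) ∪ Ici (4 * L) = (Ici 1 : Set ℕ) := Ico_union_Ici_eq_Ici (by omega)
  have hd : Disjoint (Ico 1 (4 * L)) (Ici (4 * L) : Set ℕ) := by
    rw [Set.disjoint_left]
    intro n h3 h4
    exact absurd h3.2 (not_lt.2 h4)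
  have h3 : P.real {ω | X I (Ici 1) ω ∈ Ioc a b} ≤
      P.real ({ω | X I (Ico 1 (4 * L)) ω ∈ Ioc (a - ε) b} ∪ {ω | ε ≤ X I (Ici (4 * L)) ω}) := by
    rw [measureReal_def, measureReal_def]
    refine ENNReal.toReal_mono (measure_ne_top _ _) (measure_mono_ae ?_)
    filter_upwards [aesum h] with ω hs hω
    have hω' : a < X I (Ici 1) ω ∧ X I (Ici 1) ω ≤ b := hω
    have h4 := X_union hs hd
    rw [hset] at h4
    have h5 := X_nonneg h (Ici (4 * L)) ω
    rcases lt_or_ge (X I (Ici (4 * L)) ω) ε with h6 | h6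
    · left
      exact ⟨by linarith [hω'.1], by linarith [hω'.2]⟩
    · right; exact h6
  have h4 : P.real ({ω | X I (Ico 1 (4 * L)) ω ∈ Ioc (a - ε) b} ∪
      {ω | ε ≤ X I (Ici (4 * L)) ω}) ≤ _ := measureReal_union_le _ _
  have h5 : 1 / (((4 * L : ℕ) : ℝ) * ε) = 1 / (4 * ε) / L := by
    push_cast
    field_simp
  rw [h5] at h2
  linarith

lemma main_int (h : Rec P I) {a b : ℝ} (hab : a ≤ b) :
    P.real {ω | X I (Ici 1) ω ∈ Ioc a b} ≤ 52 * (b - a) := by
  refine le_of_forall_pos_le_add fun η hη => ?_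
  set ε := η / 52 with hε
  have hε0 : 0 < ε := by positivity
  have hlim : Tendsto (fun L : ℕ => 52 * (b - a + ε) + 13 / (L : ℝ) + 1 / (4 * ε) / L) atTop
      (𝓝 (52 * (b - a + ε) + 0 + 0)) :=
    (tendsto_const_nhds.add (tendsto_const_div_atTop_nhds_zero_nat _)).add
      (tendsto_const_div_atTop_nhds_zero_nat _)
  have h1 : P.real {ω | X I (Ici 1) ω ∈ Ioc a b} ≤ 52 * (b - a + ε) + 0 + 0 := by
    refine ge_of_tendsto hlim ?_
    filter_upwards [eventually_ge_atTop 2] with L hL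
    exact main_eps h hab hε0 hL
  have h2 : 52 * ε = η := by rw [hε]; ring
  linarith

lemma law_int (h : Rec P I) {a b : ℝ} (hab : a ≤ b) :
    (P.map fun ω => ∑' n : ℕ, I n ω / ((n : ℝ) + 1)).real (Ioc a b) ≤ 52 * (b - a) := by
  have hprob := h.prob
  have hX : (fun ω => ∑' n : ℕ, I n ω / ((n : ℝ) + 1)) = X I univ := by
    funext ω; simp [X]
  rw [hX, map_measureReal_apply (meas_X h _) measurableSet_Ioc]
  have h1 : ∀ᵐ ω ∂P, I 0 ω = 1 := by
    have h2 := h.one 0
    have hms : MeasurableSet {ω | I 0 ω = 1} := h.meas 0 (measurableSet_singleton 1)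
    have h3 : P.real {ω | I 0 ω = 1}ᶜ = 0 := by
      rw [probReal_compl_eq_one_sub hms, h2]; norm_num
    rw [measureReal_def, ENNReal.toReal_eq_zero_iff] at h3
    have h4 := h3.resolve_right (measure_ne_top _ _)
    rw [measure_eq_zero_iff_ae_notMem] at h4
    filter_upwards [h4] with ω hω
    simpa using hω
  have h2 : P.real (X I univ ⁻¹' Ioc a b) =
      P.real {ω | X I (Ici 1) ω ∈ Ioc (a - 1) (b - 1)} := by
    refine measureReal_congr ?_
    filter_upwards [aesum h, h1] with ω hs hω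
    simp only [eq_iff_iff]
    change X I univ ω ∈ Ioc a b ↔ X I (Ici 1) ω ∈ Ioc (a - 1) (b - 1)
    have hun : insert 0 (Ici 1) = (univ : Set ℕ) := by
      ext n
      simp only [mem_insert_iff, mem_Ici, mem_univ, iff_true]
      omega
    have h5 := X_insert hs (A := Ici 1) (n := 0) (by simp)
    rw [hun, hω] at h5
    rw [h5]
    simp only [mem_Ioc]
    norm_num
    constructor
    · rintro ⟨h6, h7⟩; constructor <;> linarith
    · rintro ⟨h6, h7⟩; constructor <;> linarith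
  rw [h2]
  have h3 := main_int h (a := a - 1) (b := b - 1) (by linarith)
  linarith

lemma measure_le_of_Ioc (μ : Measure ℝ) [IsProbabilityMeasure μ] (C : NNReal)
    (hC : ∀ a b, a ≤ b → μ.real (Ioc a b) ≤ C * (b - a)) : μ ≤ C • volume := by
  have hF : ∀ a b, a ≤ b → cdf μ b - cdf μ a ≤ C * (b - a) := by
    intro a b hab
    have h1 := hC a b hab
    have h2 : (cdf μ).measure (Ioc a b) = ENNReal.ofReal (cdf μ b - cdf μ a) :=
      StieltjesFunction.measure_Ioc _ _ _
    rw [measure_cdf] at h2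
    rw [measureReal_def, h2, ENNReal.toReal_ofReal (sub_nonneg.2 (monotone_cdf μ hab))] at h1
    exact h1
  let g : StieltjesFunction ℝ :=
    { toFun := fun x => C * x - cdf μ x
      mono' := fun a b hab => by
        have := hF a b hab
        simp only
        linarith
      right_continuous' := fun x =>
        (continuous_const.mul continuous_id).continuousWithinAt.sub ((cdf μ).right_continuous x) }
  have h1 : cdf μ + g = C • StieltjesFunction.id := by
    ext x
    change cdf μ x + (C * x - cdf μ x) = (C : ℝ) * x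
    ring
  have h2 := StieltjesFunction.measure_add (cdf μ) g
  rw [h1, measure_cdf, StieltjesFunction.measure_smul, ← Real.volume_eq_stieltjes_id] at h2
  rw [h2]
  exact Measure.le_add_right le_rfl

/-- The law of the record harmonic series has a bounded density. -/
theorem result {Ω : Type*} [MeasurableSpace Ω] (P : Measure Ω) [IsProbabilityMeasure P]
    (I : ℕ → Ω → ℝ) (hmeas : ∀ n, Measurable (I n)) (hval : ∀ n ω, I n ω = 0 ∨ I n ω = 1)
    (hindep : iIndepFun I P)
    (hone : ∀ n : ℕ, P.real {ω | I n ω = 1} = 1 / ((n : ℝ) + 1)) :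
    ∀ A : Set ℝ, MeasurableSet A →
      (P.map fun ω => ∑' n : ℕ, I n ω / ((n : ℝ) + 1)) A ≤ 52 * volume A := by
  intro A _
  have h : Rec P I := ⟨inferInstance, hmeas, hval, hindep, hone⟩
  have hX : (fun ω => ∑' n : ℕ, I n ω / ((n : ℝ) + 1)) = X I univ := by
    funext ω; simp [X]
  have hprob : IsProbabilityMeasure (P.map fun ω => ∑' n : ℕ, I n ω / ((n : ℝ) + 1)) := by
    rw [hX]
    exact Measure.isProbabilityMeasure_map (meas_X h _).aemeasurable
  have h1 := measure_le_of_Ioc _ 52 (fun a b hab => law_int h hab) A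
  exact h1

end Pool.Agent.Results.MP_5a22fd_pr.BoundedDensity
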